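import Pool.Agent.TH699.TS.Perm

/-!
The permutation rule does not simulate the extension rule for tree-like refutations whose lines are
systems of polynomial equations of bounded degree modulo any numbers.
-/

open Finset

namespace Pool.Agent.Results.MP_0447ec_lc.PermutationTrees

open Pool.Agent.H642R2.Dual Pool.Agent.TH699.TD Pool.Agent.TH699.TS

/-- For all `k ≥ 1` and `n ≥ 25` there is an unsatisfiable CNF formula `Φ` whose number `N` of
variables is between `n` and `C n`, where `C = 2^(3k+13)`, with at most `2^C n` clauses, each with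
at most `C` literals, such that
* with at most `N` extension variables, each of which stands for a conjunction of `k + 1` variables,
  there is a tree-like refutation of `Φ` with at most `2^C n` nodes whose lines are systems of
  linear equations modulo 2 (at most one equation more than there are variables and extension
  variables) or negations of such systems, but
* every tree-like semantic refutation of `Φ` with the permutation rule (for all permutations of the
  variables which preserve the set of all consequences of single clauses of `Φ`), whose lines are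
  systems of polynomial equations of degree at most `k`, each modulo an arbitrary number, or
  negations of such systems, has at least `2^(N/C)` leaves. -/
theorem result (k n : ℕ) (hk : 1 ≤ k) (hn : 25 ≤ n) :
    ∃ (V : Type) (_ : Fintype V) (_ : DecidableEq V) (Φ : Finset (Clause V)),
      n ≤ Fintype.card V ∧ Fintype.card V ≤ 2 ^ (3 * k + 13) * n ∧
      Φ.card ≤ 2 ^ 2 ^ (3 * k + 13) * n ∧ (∀ C ∈ Φ, C.card ≤ 2 ^ (3 * k + 13)) ∧
      (∀ x, ∃ C ∈ Φ, ¬ Sat C x) ∧
      (∃ (W : Type) (_ : Fintype W) (_ : DecidableEq W) (D : W → Finset V),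
        Fintype.card W ≤ Fintype.card V ∧ (∀ w, (D w).card = k + 1) ∧
        ∃ t : Der (V ⊕ W), t.IsRefutation (ExtAx Φ D) ∧ t.All (Mod2Line 1) ∧
          nodes t ≤ 2 ^ 2 ^ (3 * k + 13) * n) ∧
      (∀ t : PDer V, t.IsRefutation (ClauseAx Φ) → t.All (ModLine k) →
        (2 : ℝ) ^ (Fintype.card V / 2 ^ (3 * k + 13) : ℝ) ≤ t.leaves) := by
  obtain ⟨V, i1, i2, Φ, W, i3, i4, D, h1, h2, h3, h4, h5, h6, h7, h8, h9⟩ := exists_perm_ext hk hn
  refine ⟨V, i1, i2, Φ, h1, h2, h3, h4, h5, ⟨W, i3, i4, D, h6, h7, h8⟩, fun t ht hl => ?_⟩
  obtain ⟨t', e1, e2, e3, e4⟩ := PDer.push (P := ModLine k) ModLine.perm t ht.1 hl 1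
    (fun L hL => hL)
  refine (h9 t' ⟨e1, fun x => ?_⟩ e2).trans (le_of_eq ?_)
  · rw [e3]
    exact ht.2 _
  · rw [e4]

end Pool.Agent.Results.MP_0447ec_lc.PermutationTrees
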