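import Pool.Agent.TH677.PM.Fin

/-!
# Frege + permutation simulates extended Frege proofs whose extension axioms are easy to separate

`EFP F A E L` (file `TH677/EF/Sim`): `L` (last line first) is an extended Frege proof of `A`, and
`E` is the list of its extension axioms `q ↔ ψ`, as pairs `(q, ψ)`; `keys E` is the set of the
extension variables and `dfn E q` the definition of `q`. `PermProof F L`: `L` is a proof in the
Frege system `F` with the permutation rule.
-/

set_option autoImplicit false

namespace Pool.Agent.Results.MP_0447ec_lc.SeparatorExponent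

open Pool.Agent.H555R2.PF Pool.Agent.H555R2.PF.Fm Pool.Agent.TH677.EF Pool.Agent.TH677.PM

/-- Let `F` be a Frege system.

1. There is a constant `C` such that the following holds for every extended Frege proof of a
   formula `A` in `n` variables, of size `s`, whose definitions have size at most `b`, and every
   set `T` of extension variables; `k` is the number of the other extension variables. If `T` has
   decomposition depth at most `d`, then `A` has a proof in Frege + permutation of size at most
   `(s (b + 2) ^ (d + 1)) ^ C * 2 ^ (C √(k log₂ (n + 2)))`. The same holds with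
   `d = (w + 1) (log₂ |T| + 1)` if `T` has treewidth at most `w`.
2. For every `0 < α < 1` there is a constant `C` such that if the graph of the `m` extension
   variables has balanced separators of size `c |Y| ^ α` for all sets `Y` of vertices (`c ≥ 1`),
   then `A` has a proof in Frege + permutation of size at most
   `(s (b + 2) ^ (1 + c M) * 2 ^ (c M √(log₂ (n + 2)))) ^ C`, where `M = m ^ (α / (1 + α))`. -/
theorem result (F : List Rule) (hF : IsFrege F) :
    (∃ C : ℕ, ∀ (A : Fm) (E : List (ℕ × Fm)) (L : List Fm), EFP F A E (A :: L) →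
      ∀ (T : Finset ℕ) (b : ℕ), (∀ p ∈ E, p.2.size ≤ b) → T ⊆ keys E →
      (∀ d : ℕ, Dec (dfn E) T d → ∃ L' : List Fm, PermProof F (A :: L') ∧
        psize (A :: L') ≤ (psize (A :: L) * (b + 2) ^ (d + 1)) ^ C *
          2 ^ (C * Nat.sqrt ((keys E \ T).card * Nat.log 2 (A.vars.card + 2)))) ∧
      ∀ w : ℕ, Nonempty (TreeDec (dfn E) T w) → ∃ L' : List Fm, PermProof F (A :: L') ∧
        psize (A :: L') ≤ (psize (A :: L) * (b + 2) ^ ((w + 1) * (Nat.log 2 T.card + 1) + 1)) ^ C *
          2 ^ (C * Nat.sqrt ((keys E \ T).card * Nat.log 2 (A.vars.card + 2)))) ∧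
    ∀ α : ℝ, 0 < α → α < 1 → ∃ C : ℕ, ∀ (A : Fm) (E : List (ℕ × Fm)) (L : List Fm),
      EFP F A E (A :: L) → ∀ (b : ℕ) (c : ℝ), (∀ p ∈ E, p.2.size ≤ b) → 1 ≤ c →
      Seps (dfn E) (keys E) α c → ∃ L' : List Fm, PermProof F (A :: L') ∧
        (psize (A :: L') : ℝ) ≤
          ((psize (A :: L) : ℝ) * ((b : ℝ) + 2) ^ (1 + c * ((keys E).card : ℝ) ^ (α / (1 + α))) *
            2 ^ (c * ((keys E).card : ℝ) ^ (α / (1 + α)) *
              √(Real.logb 2 ((A.vars.card : ℝ) + 2)))) ^ C := by
  refine ⟨?_, fun α h0 h1 => perm_seps hF α h0 h1⟩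
  obtain ⟨C, hC⟩ := perm_sim hF
  refine ⟨C, fun A E L h T b hb hT => ⟨fun d hd => hC A E L h T b d hb hT hd, fun w hw => ?_⟩⟩
  obtain ⟨W⟩ := hw
  exact hC A E L h T b _ hb hT W.depth

end Pool.Agent.Results.MP_0447ec_lc.SeparatorExponent
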